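import Mathlib
import Pool.Agent.Helper43.Hw.Defs
import Pool.Agent.Helper43.Ah.Good

/-!
Project LR (MP_d3128a_ag, long rows and gluing): definitions.

The row game: rows `0, …, R - 1`, the row `y` has length `ℓ y`; `N` points with multiplicities `ν c`
(arbitrary order). `κ y` is the number of old points at the row `y`, `x y` is what the moving point
`κ y` gives to the row `y`; a point which has not started gives its natural value `na ν R c y`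
(`ν c` to the last row, `ν c - 1` to the row before, …). `T k = k (k + 1) / 2` (from Hw/Defs);
`aa`, `ac`, `sc` are those of Hw/Defs: `ac R κ x c` is the first row at which `c` has started, `sc R κ c` the
first row at which `c` is old (`R` if there is none). `w = R - 1 - y` is the distance of the row
`y` to the last row.
-/

set_option autoImplicit false

namespace Pool.Agent.Helper43.Lr

open Finset
open Pool.Agent.Helper43.Gm (st mv nn Run Pri)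
open Pool.Agent.Helper43.Hw (T aa ac sc)
open Pool.Agent.Helper43.Ah (rowsD)

/-- natural value of the point `c` at the row `y` (it is `ν c - w`) -/
def na (ν : ℕ → ℕ) (R c y : ℕ) : ℕ := ν c + 1 + y - R

/-- what the point `c` gives to the row `z` -/
def va (ν : ℕ → ℕ) (R : ℕ) (κ x : ℕ → ℕ) (c z : ℕ) : ℕ :=
  if κ z < c then na ν R c z else nn κ x ν c z

/-- the load of the row `z` -/
def lz (ν : ℕ → ℕ) (R N : ℕ) (κ x : ℕ → ℕ) (z : ℕ) : ℕ := ∑ c ∈ range N, va ν R κ x c z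

/-- a play -/
structure Play (ν : ℕ → ℕ) (R N : ℕ) (κ x : ℕ → ℕ) : Prop where
  mono : ∀ y, y + 1 < R → κ y ≤ κ (y + 1)
  le : ∀ y < R, κ y ≤ N
  lt : ∀ y, y + 1 < R → x y < ν (κ y)
  nat : ∀ y < R, κ y < N → na ν R (κ y) y ≤ x y
  fin : ∀ y < R, κ y = N → x y = 0
  inc : ∀ y, y + 1 < R → 0 < x y → κ (y + 1) = κ y → x y < x (y + 1)
  lastκ : κ (R - 1) = κ (R - 2)
  lastx : κ (R - 1) < N → x (R - 1) = ν (κ (R - 1))

/-- the multiplicities are positive and less than the number of rows -/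
def NU (ν : ℕ → ℕ) (R : ℕ) : Prop := ∀ c, 1 ≤ ν c ∧ ν c + 2 ≤ R

/-- the row lengths: linear from the row `1` on -/
structure Lin (R β : ℕ) (ℓ : ℕ → ℕ) : Prop where
  β1 : 1 ≤ β
  ℓ01 : ℓ 0 < ℓ 1
  lin : ∀ y, 1 ≤ y → y + 1 < R → ℓ (y + 1) = ℓ y + β

/-- number of the old points alive at the row `y` -/
def oo (ν : ℕ → ℕ) (R : ℕ) (κ x : ℕ → ℕ) (y : ℕ) : ℕ :=
  ((range (κ y)).filter (fun c => 0 < va ν R κ x c y)).card

/-- number of the points not started (and not the moving one) whose natural value increases from the row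
`y` to the row `y + 1` -/
def f1 (ν : ℕ → ℕ) (R N : ℕ) (κ : ℕ → ℕ) (y : ℕ) : ℕ :=
  ((range N).filter (fun c => κ y < c ∧ R - 1 - y ≤ ν c)).card

/-- number of the skips of old points between the rows `y` and `y + 1` -/
def sk (ν κ x : ℕ → ℕ) (y : ℕ) : ℕ :=
  ((range y).filter (fun t => κ t < κ y ∧ 0 < x t ∧ ν (κ t) + t = x t + y)).card

/-- the row `R - 1 - U t` is followed by the skip because of the moving row `t` -/
def U (ν : ℕ → ℕ) (R : ℕ) (κ x : ℕ → ℕ) (t : ℕ) : ℕ := R + x t - (t + 1 + ν (κ t))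

/-- the sum of `T` (distance from the death to the last row) over the old points alive at `y` -/
def Dd (ν : ℕ → ℕ) (R : ℕ) (κ x : ℕ → ℕ) (y : ℕ) : ℕ :=
  ∑ c ∈ (range (κ y)).filter (fun c => 0 < va ν R κ x c y), T (R - 1 - (ac R κ x c + ν c))

/-- the pending skips of old points at the row `y`, weighted -/
def Sd (ν : ℕ → ℕ) (R : ℕ) (κ x : ℕ → ℕ) (y : ℕ) : ℕ :=
  ∑ t ∈ (range y).filter (fun t => κ t < κ y ∧ 0 < x t ∧ U ν R κ x t ≤ R - 1 - y), U ν R κ x t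

/-- number of pending skips at the row `y` of all points moving before `y` -/
def Pn (ν : ℕ → ℕ) (R : ℕ) (κ x : ℕ → ℕ) (y : ℕ) : ℕ :=
  ((range y).filter (fun t => 0 < x t ∧ 0 < U ν R κ x t ∧ U ν R κ x t ≤ R - 1 - y)).card

/-- the excess of the decrease of the load over the decrease allowed by the rows -/
def G (ν : ℕ → ℕ) (R N β : ℕ) (κ x : ℕ → ℕ) (y : ℕ) : ℤ := (oo ν R κ x y : ℤ) + β - f1 ν R N κ y

/-- the next value of the moving point if nothing is done -/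
def nx (ν : ℕ → ℕ) (R : ℕ) (κ x : ℕ → ℕ) (y : ℕ) : ℕ :=
  if 0 < x y then x y + 1 else na ν R (κ y) (y + 1)

/-- the load of the row `y + 1` if nothing is done (`κ y < N`) -/
def bb (ν : ℕ → ℕ) (R N : ℕ) (κ x : ℕ → ℕ) (y : ℕ) : ℕ :=
  ∑ c ∈ range (κ y), va ν R κ x c (y + 1) +
    ∑ c ∈ (range N).filter (fun c => κ y < c), na ν R c (y + 1) + nx ν R κ x y

/-- the greedy rule on the rows `0, …, R - 2` -/
def Greedy (ν : ℕ → ℕ) (R N : ℕ) (ℓ κ x : ℕ → ℕ) : Prop :=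
  (lz ν R N κ x 0 = ℓ 0 ∨ (κ 0 = N ∧ lz ν R N κ x 0 ≤ ℓ 0)) ∧ ∀ y, y + 2 < R → κ y < N →
    (ℓ (y + 1) ≤ bb ν R N κ x y ∧ lz ν R N κ x (y + 1) = bb ν R N κ x y ∧
      ((κ (y + 1) = κ y ∧ x (y + 1) = nx ν R κ x y) ∨
        (κ (y + 1) = κ y + 1 ∧ nx ν R κ x y = ν (κ y) ∧
          (κ (y + 1) < N → x (y + 1) = na ν R (κ (y + 1)) (y + 1))))) ∨
    (bb ν R N κ x y < ℓ (y + 1) ∧
      (lz ν R N κ x (y + 1) = ℓ (y + 1) ∨ (κ (y + 1) = N ∧ lz ν R N κ x (y + 1) ≤ ℓ (y + 1))))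

/-- the rows `0, …, Y` are exactly filled and some point has not become old -/
def Exact (ν : ℕ → ℕ) (R N : ℕ) (ℓ κ x : ℕ → ℕ) (Y : ℕ) : Prop :=
  Y < R ∧ κ Y < N ∧ ∀ z ≤ Y, lz ν R N κ x z = ℓ z

/-- number of cells minus number of conditions -/
def Wm (ν : ℕ → ℕ) (R N : ℕ) (ℓ : ℕ → ℕ) : ℤ :=
  ((∑ z ∈ range R, ℓ z : ℕ) : ℤ) - ((∑ c ∈ range N, T (ν c) : ℕ) : ℤ)

/-- the conclusion of the game theorems: all the loads are at most, or all are at least, the row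
lengths -/
def Fine (ν : ℕ → ℕ) (R N : ℕ) (ℓ κ x : ℕ → ℕ) : Prop :=
  (0 ≤ Wm ν R N ℓ ∧ ∀ z < R, lz ν R N κ x z ≤ ℓ z) ∨ (Wm ν R N ℓ ≤ 0 ∧ ∀ z < R, ℓ z ≤ lz ν R N κ x z)

/-- arrangement of the points: first (`c < c1`) those of multiplicity `> μ` (few), then (`c < c2`) arbitrary
ones of multiplicity `≤ μ`, then (`c ≥ c2`) those with `3 μ / 4 < ν c ≤ μ`, in decreasing order -/
structure Arr (μ M R N c1 c2 : ℕ) (ℓ ν : ℕ → ℕ) : Prop where
  μ1 : 1 ≤ μ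
  μM : μ ≤ M
  R1 : 10 * M + 2 ≤ R
  ν1 : ∀ c, 1 ≤ ν c
  νM : ∀ c, ν c ≤ M
  half : ∀ y < R, R ≤ y + 9 * μ + 1 → ℓ (R - 1) ≤ 2 * ℓ y
  c12 : c1 ≤ c2
  c2N : c2 ≤ N
  mid : ∀ c, c1 ≤ c → ν c ≤ μ
  fin : ∀ c, c2 ≤ c → c < N → 3 * μ < 4 * ν c
  anti : ∀ c c', c2 ≤ c → c ≤ c' → c' < N → ν c' ≤ ν c
  A1 : ∑ c ∈ range c1, T (ν c) < ∑ z ∈ range (R - 8 * μ - M), ℓ z
  A3 : ∑ c ∈ range c2, T (ν c) < ∑ z ∈ range (R - 8 * μ), ℓ z

/-- the common hypotheses of the zone packets; the zone are the rows with `w ≤ μ` -/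
structure Zn (μ R N β c2 l : ℕ) (ℓ ν κ x : ℕ → ℕ) : Prop where
  μ1 : 16 ≤ μ
  l1 : 1 ≤ l
  R1 : 9 * μ + 2 ≤ R
  nu : NU ν R
  row : Lin R β ℓ
  half : ∀ y < R, R ≤ y + 9 * μ + 1 → ℓ (R - 1) ≤ 2 * ℓ y
  fin : ∀ c, c2 ≤ c → c < N → 3 * μ < 4 * ν c ∧ ν c ≤ μ
  anti : ∀ c c', c2 ≤ c → c ≤ c' → c' < N → ν c' ≤ ν c
  play : Play ν R N κ x
  z1 : c2 ≤ κ (R - 1 - 8 * μ)
  z2 : ∀ c < N, μ < ν c → ac R κ x c + ν c + 8 * μ + 1 ≤ R
  lo : 4 * μ ^ 2 ≤ l * ℓ (R - 1)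
  hi : l * ℓ (R - 1) ≤ 10 ^ 5 * μ ^ 2
  big : 5000 * l ≤ μ

/-- the numerical conditions on a distance `w` -/
structure Zw (μ l L w W : ℕ) : Prop where
  L1 : 1 ≤ L
  hL : μ ≤ 2 ^ L * l
  h1 : 2 * 10 ^ 7 * l * L ≤ w
  h2 : 10 ^ 12 * μ ≤ w ^ 2
  h3 : 10 ^ 5 * l * W ≤ w ^ 3

/-- what is proved for the rows `z` of the zone by induction -/
def Okz (μ R N β l L : ℕ) (ℓ ν κ x : ℕ → ℕ) (z : ℕ) : Prop :=
  ((R - 1 - z : ℕ) : ℤ) ≤ 3200 * l * (G ν R N β κ x z - 1) ∧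
  (2 * μ ≤ 3 * (R - 1 - z) → ((R - 1 - z : ℕ) : ℤ) ≤ 125 * l * (G ν R N β κ x z - 1)) ∧
  μ * Pn ν R κ x z ≤ 60 * ℓ (R - 1) + 140 * μ * (R - 1 - z) * L

/-- the points which are alive at the row `y` or moving before `y` and not finished -/
def Al (ν : ℕ → ℕ) (R : ℕ) (κ x : ℕ → ℕ) (y : ℕ) : Finset ℕ :=
  (range (κ y + 1)).filter (fun c => ac R κ x c ≤ y ∧ y < ac R κ x c + ν c)

/-- the rows `a ≤ q < a + R`, where the row `q` has the cells `k < ℓ (a + R - 1 - q)` (the row `q` is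
played at `y = a + R - 1 - q`) -/
def reg (a R : ℕ) (ℓ : ℕ → ℕ) : Finset (ℕ × ℕ) :=
  rowsD (a + R) (fun q => if a ≤ q then ℓ (a + R - 1 - q) else 0)

end Pool.Agent.Helper43.Lr
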