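import Mathlib
import Pool.Agent.Helper43.Lr.Defs

/-!
Project LR, first part: the row game for arbitrary multiplicities. Statements of the packets.
`w = R - 1 - y`, `ℓ* = ℓ (R - 1)`. The statements L1 … L12 are the analogues of H1 … H12 of
`Pool/Agent/Helper43/Hw/Goals.lean` (there all `ν c = μ` and `ℓ y = y + 1`); the proofs of these packets
(see the imports of `Pool/Agent/Helper43/Hw/Main.lean`) can be copied and adapted. All the structural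
statements have been tested by computer on several thousand random plays.
-/

set_option autoImplicit false

namespace Pool.Agent.Helper43.Lr

open Finset
open Pool.Agent.Helper43.Gm (st mv nn Run Pri)
open Pool.Agent.Helper43.Hw (T aa ac sc)
open Pool.Agent.Helper43.Ah (rowsD)
open Pool.Agent.Lead.Sh (Inj Ind rows)
open Pool.Agent.Lead.Rw (Ind')

/-- L1 (old points). Proof: as `Pool/Agent/Helper63/Hw/H1.lean` with `ν c` in place of `μ`. (`κ` and `aa` are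
monotone on `[0, R)`; `κ t = c ∧ 0 < x t` iff `κ t ≤ c < aa t`; by `inc`, `x t + (t' - t) ≤ x t'` for
`ac ≤ t ≤ t' < sc`; `st κ c y = sc`; `va c y = ν c - (y - sc) - #{t ∈ [ac, sc) : ν c + t < x t + y}`; if
`ac + ν c ≤ y` all `t ∈ [ac, sc)` are counted as `x t ≥ 1 + t - ac`.) For the honesty of `U`: `κ t < N` as
`0 < x t`, and `na ≤ x t` gives `t + 1 + ν c ≤ R + x t`. -/
def GoalL1 : Prop := ∀ (ν : ℕ → ℕ) (R N : ℕ) (κ x : ℕ → ℕ), NU ν R → Play ν R N κ x →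
  (∀ c, ∀ y < R, (κ y ≤ c ↔ y < sc R κ c) ∧ (aa κ x y ≤ c ↔ y < ac R κ x c)) ∧
  (∀ c, ∀ t < R, (κ t = c ∧ 0 < x t) ↔ (ac R κ x c ≤ t ∧ t < sc R κ c)) ∧
  (∀ c, ac R κ x c ≤ sc R κ c) ∧
  (∀ c, sc R κ c < R → va ν R κ x c (sc R κ c) = ν c) ∧
  (∀ c t, ac R κ x c ≤ t → t < sc R κ c →
    (sc R κ c < R → x t + sc R κ c ≤ ν c + t) ∧ R ≤ U ν R κ x t + ac R κ x c + ν c) ∧
  (∀ y < R, ∀ c < κ y, st κ c y = sc R κ c ∧ sc R κ c ≤ y ∧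
    ac R κ x c + ν c ≤ va ν R κ x c y + y ∧ (0 < va ν R κ x c y ↔ y < ac R κ x c + ν c)) ∧
  (∀ y, y + 1 < R → ∀ c < κ y,
    (0 < va ν R κ x c y → va ν R κ x c (y + 1) + 1 +
      ((range y).filter (fun t => κ t = c ∧ 0 < x t ∧ ν c + t = x t + y)).card = va ν R κ x c y) ∧
    (va ν R κ x c y = 0 → va ν R κ x c (y + 1) = 0 ∧
      ((range y).filter (fun t => κ t = c ∧ 0 < x t ∧ ν c + t = x t + y)).card = 0))

/-- L2 (what one point gives). Assume L1. Proof: as `Pool/Agent/Helper32/Hw/H2.lean` with `ν c` in place of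
`μ`. First part: induction on `y` downwards (with the boundary row `y = ac + ν c`, where both sides are
`T (R-1-y)`). Third part: rows `z < ac`: `va c z = na c z`, sum `T (ac + ν c - R)`; if `sc < R` use part 1 at
`y = sc` (`va = ν c`), `(x t : ℤ) - U t = t + 1 + ν c - R`; if `sc = R` (never old) `lastx`, `inc`, `nat` force
`x t = na c t` for `ac ≤ t < R` (`c < N`); `∑ na = T (ν c)` as `ν c ≤ R`. -/
def GoalL2 : Prop := ∀ (ν : ℕ → ℕ) (R N : ℕ) (κ x : ℕ → ℕ), NU ν R → Play ν R N κ x →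
  (∀ y < R, ∀ c < κ y, 0 < va ν R κ x c y →
    ∑ z ∈ Ico y R, va ν R κ x c z + T (R - 1 - y) +
      ∑ t ∈ (range y).filter (fun t => κ t = c ∧ 0 < x t ∧ U ν R κ x t ≤ R - 1 - y), U ν R κ x t =
    (R - y) * va ν R κ x c y + T (R - 1 - (ac R κ x c + ν c))) ∧
  (∀ y < R, ∀ c < κ y, va ν R κ x c y = 0 → ∑ z ∈ Ico y R, va ν R κ x c z = 0) ∧
  (∀ c < N, ∑ z ∈ range R, va ν R κ x c z = T (ν c)) ∧
  ∑ z ∈ range R, lz ν R N κ x z = ∑ c ∈ range N, T (ν c)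

/-- L3 (the inequality behind everything). Assume L1, L2. `w = R - 1 - y`, `k = y - ac (κ y)`,
`u = x y - na (κ y) y`.

Proof. `∑_{z ≥ y} lz z = ∑_c T (ν c) - ∑_{z < y} ℓ z = ∑_{z ≥ y} ℓ z - Wm`, and
`∑_{z ≥ y} ℓ z = (w + 1) ℓ y + β T w` (`1 ≤ y`, Lin). Split the left side by points. Old alive `c`: by L2
`(w + 1) va c y - T w - (its U-sum) + T (R - 1 - (ac + ν c))`; old dead: `0`, and the `U`-sum of a dead point is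
empty (`U t ≥ R - ac - ν c > w` by L1.5). Not started, `κ y < c < N`: `∑_{z ≥ y} na c z`, which is
`(w + 1) na c y + T w` if `w ≤ ν c`, and `T (ν c) ≥ 0`, `na c y = 0`, if `ν c < w`. The point `κ y`:
`T ν - ∑_{z<y} va (κ y) z = ∑_{z ≥ y} na z - ∑_{z<y} (va - na) z ≥ (w + 1) na (κ y) y - k u`, because before
`ac` it gives `na`, and for `ac ≤ z < y` `x z - na z ≤ x y - na y = u` (`x` increases by at least one per
row, `na` by at most one); so it gives at least `(w + 1) x y - (w + 1 + k) u`. Sum up, with `lz y = ℓ y`: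
`(w + 1) ℓ y + β T w - Wm ≥ (w + 1) ℓ y - oo T w - Sd + Dd + f1 T w - (w + 1 + k) u`. -/
def GoalL3 : Prop := ∀ (ν : ℕ → ℕ) (R N β : ℕ) (ℓ κ x : ℕ → ℕ) (y : ℕ), NU ν R → Lin R β ℓ →
  Play ν R N κ x → Exact ν R N ℓ κ x y → 1 ≤ y →
  (Dd ν R κ x y : ℤ) - Sd ν R κ x y + Wm ν R N ℓ -
      ((R - y + (y - ac R κ x (κ y)) : ℕ) : ℤ) * ((x y - na ν R (κ y) y : ℕ) : ℤ) ≤
    G ν R N β κ x y * T (R - 1 - y)

/-- L4 (loads of consecutive rows). Assume L1. `∑_{c < κ y} va c (y+1) + oo y + sk y = ∑_{c < κ y} va c y`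
by L1.7 (`sk y` is the sum over `c` of the numbers there); a point `κ y ≤ c < κ (y+1)` has `sc = y + 1`
and gives `ν c` (L1.4); `c = κ (y+1)` gives `x (y+1)`, later ones `na c (y+1)`; and
`∑_{κ y < c < N} (na c (y+1) - na c y) = f1 y`. Last part: `na (R-2) = ν - 1 ≤ x (R-2) < ν` for the point
`κ (R-2)`, so `nx = ν`. (Compare `Pool/Agent/Helper62/Hw/H4.lean`.) -/
def GoalL4 : Prop := ∀ (ν : ℕ → ℕ) (R N : ℕ) (κ x : ℕ → ℕ), NU ν R → Play ν R N κ x →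
  ∀ y, y + 1 < R →
  (κ y < N → κ (y + 1) < N →
    (lz ν R N κ x (y + 1) : ℤ) = lz ν R N κ x y - oo ν R κ x y - sk ν κ x y + f1 ν R N κ y - x y +
      na ν R (κ y) (y + 1) + ∑ c ∈ Ico (κ y) (κ (y + 1)), ((ν c : ℤ) - na ν R c (y + 1)) +
      x (y + 1) - na ν R (κ (y + 1)) (y + 1)) ∧
  (κ y < N → κ (y + 1) = N →
    (lz ν R N κ x (y + 1) : ℤ) = lz ν R N κ x y - oo ν R κ x y - sk ν κ x y + f1 ν R N κ y - x y +
      na ν R (κ y) (y + 1) + ∑ c ∈ Ico (κ y) N, ((ν c : ℤ) - na ν R c (y + 1))) ∧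
  (κ y = N → lz ν R N κ x (y + 1) + oo ν R κ x y + sk ν κ x y = lz ν R N κ x y) ∧
  (κ y < N →
    (bb ν R N κ x y : ℤ) = lz ν R N κ x y - oo ν R κ x y - sk ν κ x y + f1 ν R N κ y - x y +
      nx ν R κ x y) ∧
  (κ y < N → y + 2 = R → lz ν R N κ x (y + 1) = bb ν R N κ x y)

/-- Lx (consequences for exact rows). Assume L1, L4.
(1) For exact rows `t`, `t + 1` (`1 ≤ t`): `β = ℓ (t+1) - ℓ t`; if `κ (t+1) = κ t`, L4(1) gives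
`x (t+1) = x t + G t + sk t`; if `κ t < κ (t+1)`, it gives `x t + G t + sk t = ν (κ t) +
∑_{κ t < c < κ (t+1)} (ν c - na c (t+1)) + (x (t+1) - na (κ (t+1)) (t+1))`, and all these terms are `≥ 0`
(`na c (t+1) ≤ ν c`, `nat`).
(2) `κ (t+1) = κ t`: a point `< κ t` alive at `t + 1` is alive at `t`; `f1` can only increase.
(3) `nx - x ≤ 1` (if `x t = 0` then `na (κ t) t = 0` by `nat`), so `bb t ≤ ℓ t + 1 + β - G t - sk t ≤ ℓ t + β`.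
(4) `f1 0 = 0` as `ν c + 2 ≤ R`; `bb 0 ≤ ℓ 0 + 1 ≤ ℓ 1`.
(5) A moving row `t'` counted in `sk t`, `z ≤ t < y`, is `≥ z` (at most `y - z` of them), or `< z` and pending at
`z`: `U t' = R - 1 - t`. Every `t'` is counted for one `t` only. -/
def GoalLx : Prop := ∀ (ν : ℕ → ℕ) (R N β : ℕ) (ℓ κ x : ℕ → ℕ), NU ν R → Lin R β ℓ →
  Play ν R N κ x →
  (∀ t, 1 ≤ t → Exact ν R N ℓ κ x (t + 1) →
    (κ (t + 1) = κ t → (x (t + 1) : ℤ) = x t + G ν R N β κ x t + sk ν κ x t) ∧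
    (κ t < κ (t + 1) → (ν (κ t) : ℤ) ≤ x t + G ν R N β κ x t + sk ν κ x t)) ∧
  (∀ t, t + 1 < R → κ (t + 1) = κ t → G ν R N β κ x (t + 1) ≤ G ν R N β κ x t) ∧
  (∀ t, 1 ≤ t → t + 1 < R → Exact ν R N ℓ κ x t → 1 ≤ G ν R N β κ x t + sk ν κ x t →
    bb ν R N κ x t ≤ ℓ (t + 1)) ∧
  (Exact ν R N ℓ κ x 0 → bb ν R N κ x 0 ≤ ℓ 1) ∧
  (∀ z y, z ≤ y → y < R → ∑ t ∈ Ico z y, sk ν κ x t ≤ Pn ν R κ x z + (y - z))

/-- L5 (the greedy play exists). As H5 (`Pool/Agent/Helper54/Hw/H5.lean`): induction on the number of rows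
(values `va c z`, `lz z` for `z < L` only depend on `κ, x` on `[0, L)`, and `va c L` for `c < κ (L-1)` too, if
`κ L ≥ κ (L-1)`). Row 0 (all natural values are `0`): let `κ` be the largest number `≤ N` with
`∑_{c < κ} ν c ≤ ℓ 0`, and `x = ℓ 0 - ∑_{c < κ} ν c` if `κ < N`, `x = 0` otherwise. Step from `y` to
`y + 1 ≤ R - 2`, `κ y < N` (if `κ y = N`: `κ = N`, `x = 0`): if `bb ≥ ℓ (y+1)`: take `(κ, nx)` if `nx < ν κ`,
otherwise `κ + 1` and `x = na (κ+1) (y+1)` (`0` if `κ + 1 = N`); the load is `bb` in all cases. If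
`bb < ℓ (y+1)`: put `F j = ∑_{c < κ} va c (y+1) + ∑_{κ ≤ c < κ + j} ν c + ∑_{κ + j ≤ c < N} na c (y+1)`
(`j ≤ N - κ`), increasing, `F 0 ≤ bb < ℓ (y+1)`; if `F (N - κ) ≤ ℓ (y+1)` take `κ = N`, `x = 0`; otherwise the
`j` with `F j ≤ ℓ (y+1) < F (j+1)` and `x = na (κ+j) (y+1) + ℓ (y+1) - F j < ν (κ+j)`. Last row:
`κ (R-1) = κ (R-2)`, `x (R-1) = ν (κ (R-1))` (`0` if `κ = N`). -/
def GoalL5 : Prop := ∀ (ν : ℕ → ℕ) (R N : ℕ) (ℓ : ℕ → ℕ), NU ν R → 1 ≤ R →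
  ∃ κ x : ℕ → ℕ, Play ν R N κ x ∧ Greedy ν R N ℓ κ x

/-- L11 (the last rows, too few conditions). Assume L1, L2, L3, L4, Lx. Write `w1 = R - 1 - y`. Induction: for
`y ≤ y' ≤ R - 2` either `κ` has reached `N` at some row `r ≤ y'` with `lz r ≤ ℓ r`, or `Exact y'`.
Step from an exact `y'`, `y' + 2 < R`: L3 at `y'`, with `w' = R - 1 - y' ≤ w1`, `Dd ≥ 0`,
`Sd y' ≤ w' (Pn y + w1)`, `y' - ac (κ y') ≤ k + w1` (as `κ y' = κ y`, or `ac (κ y') > y`), `x - na ≤ w'`: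
`G y' * T w' ≥ Wm - w' (Pn y + w1) - (w' + 1 + k + w1) w' > 0`, so `G y' ≥ 1` and `bb y' ≤ ℓ (y'+1)` by Lx(3);
hence by the greedy rule `lz (y'+1) = ℓ (y'+1)`, or `κ (y'+1) = N` and `lz (y'+1) ≤ ℓ (y'+1)`. After `κ = N` loads
do not increase (L4(3)), and `ℓ` is monotone. If `N` is never reached: rows `≤ R - 2` exact, last row by the total
(L2): `lz (R-1) = ∑ T (ν c) - ∑_{z<R-1} ℓ z ≤ ℓ (R-1)`. (Compare `Pool/Agent/Helper32/Hw/H11.lean`.) -/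
def GoalL11 : Prop := ∀ (ν : ℕ → ℕ) (R N β k : ℕ) (ℓ κ x : ℕ → ℕ) (y : ℕ), NU ν R → Lin R β ℓ →
  Play ν R N κ x → Greedy ν R N ℓ κ x → Exact ν R N ℓ κ x y → 1 ≤ y → y + 2 ≤ R →
  y ≤ ac R κ x (κ y) + k →
  (((R - 1 - y) * (Pn ν R κ x y + k + 5 * (R - 1 - y) + 2) : ℕ) : ℤ) < Wm ν R N ℓ →
  ∀ z < R, lz ν R N κ x z ≤ ℓ z

/-- L12 (the last rows, too many conditions). Assume L1, L2, L4, Lx. `h z = lz z - ℓ z`; for `z ≥ y`, `κ z < N` put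
`F z = #{κ z < c < N : R - 1 - z ≤ ν c} + i z - oo z - β`, `i z = nx z - x z ∈ {0, 1}` (`i z = 1` if `0 < x z` or
`R - 1 - z ≤ ν (κ z)`), so `bb z - ℓ (z+1) = h z + F z - sk z`. Call the row `z + 1 ≤ R - 2` NA if
`bb z ≥ ℓ (z+1)` (then `lz (z+1) = bb z`). Rows `≤ R - 2` with `κ < N` have `h ≥ 0` (greedy rule). In consecutive
NA rows `κ` jumps at most once before the row `R - 1` (by one; then `x` is natural, stays natural, and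
`nx < ν`), and `F` changes by (deaths) + (new natural values) - 2 (jump): `F j ≥ F j0 - 2`. Suppose some row has
`lz z < ℓ z`. Let `r` be the first row `≤ R - 2` with `κ r = N`, or `r = R - 1` if there is none. Claim
`lz r ≤ ℓ r`: if `r = R - 1` this is clear (the only row which can fail, `lz (R-1) = bb (R-2)`, L4(5)); if
`κ r = N` with `lz r > ℓ r`, row `r` is NA, `κ (r-1) = N - 1`, `F (r-1) ≤ 1 - β ≤ 0` so `h (r-1) > 0`; let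
`y0` be the last row `< r` with `h = 0` (`≥ y`): `F y0 ≥ 1`, so `κ y0 ≤ N - 2`, and all rows in `(y0, r]` are
NA: at most one jump, contradiction. For `y < z < r` with `h z > 0`: `e` = first row `> z` with
`bb (e-1) ≤ ℓ e` (it exists and is `≤ r`), `y0` = last row `< z` with `h = 0`, `F y0 ≥ 1`, so `F ≥ -1` on
`[y0, e)` and `h z ≤ ∑_{z ≤ j < e} (sk j - F j) ≤ (Pn y + w1) + w1`, `w1 = R - 1 - y` (Lx(5)).
So `∑_{z<r} h z ≤ w1 (Pn + 2 w1)`, and `lz z ≤ ℓ z` for `z ≥ r` (after `κ = N` loads do not increase), so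
`∑ T (ν c) = ∑ lz ≤ ∑ ℓ + w1 (Pn + 2 w1)`, contradiction. (Compare `Pool/Agent/Helper62/Hw/H12.lean`.) -/
def GoalL12 : Prop := ∀ (ν : ℕ → ℕ) (R N β : ℕ) (ℓ κ x : ℕ → ℕ) (y : ℕ), NU ν R → Lin R β ℓ →
  Play ν R N κ x → Greedy ν R N ℓ κ x → Exact ν R N ℓ κ x y → 1 ≤ y → y + 2 ≤ R →
  (((R - 1 - y) * (Pn ν R κ x y + 2 * (R - 1 - y)) : ℕ) : ℤ) < - Wm ν R N ℓ →
  ∀ z < R, ℓ z ≤ lz ν R N κ x z

/-- L13 (prices). As H13 (`Pool/Agent/Helper75/Hw/H13.lean`) and packet B (`Pool.Agent.Helper53.Gm.B`, theorem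
`PkB.goalB`): a play is a `Run R R ν κ x`. For the rows `z` with `κ z ≥ c` take the same `U` as there. For a row
`z` with `κ z < c` (value `na c z = ν c - (R - 1 - z) > 0`) take `U = {z' : z < z' < R}`, `card U + na = ν c`;
for `z' < z` all steps of `π` between `z'` and `z` are much larger than `ε c`, so `V z' < V z`. -/
def GoalL13 : Prop := ∀ (ν : ℕ → ℕ) (R N : ℕ) (κ x : ℕ → ℕ), NU ν R → Play ν R N κ x →
  ∃ π ε : ℕ → ℤ, Pri R ν (va ν R κ x) π ε N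

/-- L14 (from plays to regions). Assume L2, L13. `row_inj` (Helper43/Ah/Row.lean) for the `a + R` rows
`q`, with `n' c q = va c (a + R - 1 - q)` for `a ≤ q` and `0` for `q < a`, `ε' = - ε`,
`π' q = π (a + R - 1 - q)` for `a ≤ q` and `π' q = - K`, `K` large, for `q < a` (reversal of the rows: `pri_rev` in
`Pool/Agent/Helper49/Gm/F2.lean`). Second half: the cells `k < lz (a + R - 1 - q)` of the row `q` form
`D' ⊆ reg a R ℓ` with `card D' = ∑ lz = ∑ T (ν c)` (L2), which is `(rows ν (range N)).card` (`card_rows`,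
`T_choose`), and `Inj D'` by the first half. -/
def GoalL14 : Prop := ∀ (ν : ℕ → ℕ) (a R N : ℕ) (ℓ κ x : ℕ → ℕ), NU ν R → Play ν R N κ x →
  ((∀ z < R, ℓ z ≤ lz ν R N κ x z) → Inj (reg a R ℓ) (rows ν (range N))) ∧
  ((∀ z < R, lz ν R N κ x z ≤ ℓ z) → Ind' (reg a R ℓ) (rows ν (range N)))

/-- Ar (consequences of the arrangement). Assume L1, L2.
(1) `κ` is monotone; let `Y1 = R - 1 - 8 μ - M ≤ y`. If `κ Y1 < c1`: the points `c > κ Y1` give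
`na c z = 0` to the rows `z ≤ Y1` (`ν c ≤ M`, `κ z ≤ κ Y1 < c`), so
`∑_{z ≤ Y1} ℓ z = ∑_{z ≤ Y1} lz z ≤ ∑_{c ≤ κ Y1} T (ν c) ≤ ∑_{c < c1} T (ν c)` (L2), against `A1`.
(2) The same at the row `R - 1 - 8 μ`: the points `c > κ ≥ c1` have `ν c ≤ μ` and natural value `0` there; `A3`.
(3) `ν c > μ` gives `c < c1 ≤ κ Y1`, so `ac c ≤ sc c ≤ Y1` (L1) and `ac c + ν c ≤ Y1 + M = R - 1 - 8 μ`.
(4) If `y < Y1` then `R - 1 - y > M ≥ ν c`; otherwise `c > κ y ≥ c1` gives `ν c ≤ μ < R - 1 - y`. -/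
def GoalAr : Prop := ∀ (μ M R N β c1 c2 : ℕ) (ℓ ν κ x : ℕ → ℕ), Arr μ M R N c1 c2 ℓ ν →
  Lin R β ℓ → Play ν R N κ x →
  (∀ y, Exact ν R N ℓ κ x y → R ≤ y + 8 * μ + M + 1 → c1 ≤ κ y) ∧
  (Exact ν R N ℓ κ x (R - 1 - 8 * μ) → c2 ≤ κ (R - 1 - 8 * μ)) ∧
  (Exact ν R N ℓ κ x (R - 1 - 8 * μ) → ∀ c < N, μ < ν c → ac R κ x c + ν c + 8 * μ + 1 ≤ R) ∧
  (∀ y, Exact ν R N ℓ κ x y → y + μ + 2 ≤ R → f1 ν R N κ y = 0)

/-- Z3 (before the zone). Assume L1, Lx. Rows `t` with `μ < R - 1 - t ≤ 8 μ`. `f1 t = 0`: a point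
`c > κ t ≥ κ (R-1-8μ) ≥ c2` has `ν c ≤ μ < R - 1 - t`. Old alive points at `t` have `ν ≤ μ` (`z2`), so they give
`≤ μ`; the moving one gives `< ν ≤ μ` (`κ t ≥ c2`); so `ℓ t = lz t ≤ μ (oo t + 1)`, and by Lx(1) (`t ≥ 1`)
`x (t+1) - x t ≥ β + oo t ≥ oo t + 1`; `ℓ* ≤ 2 ℓ t`. Second: `U (t+1) - U t = x (t+1) - x t - 1` (`U` is honest by
`nat`), and `ℓ* ≥ 4 μ` (from `lo`, `big`). -/
def GoalZ3 : Prop := ∀ (μ R N β c2 l : ℕ) (ℓ ν κ x : ℕ → ℕ) (y t : ℕ), Zn μ R N β c2 l ℓ ν κ x →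
  Exact ν R N ℓ κ x y → R ≤ t + 8 * μ + 1 → t < y → t + μ + 2 ≤ R → κ (t + 1) = κ t →
  ℓ (R - 1) + 2 * μ * x t ≤ 2 * μ * x (t + 1) ∧
  ℓ (R - 1) + 4 * μ * U ν R κ x t ≤ 4 * μ * U ν R κ x (t + 1)

/-- Z4 (gaps before the zone). Assume Z3. Otherwise `κ` is constant on `[z, z + l]` (`mono`), and Z3 for
`t = z, …, z + l - 1` gives `2 μ x (z + l) ≥ l ℓ* ≥ 4 μ²`, so `x (z + l) ≥ 2 μ`; but `x < ν (κ) ≤ μ`. -/
def GoalZ4 : Prop := ∀ (μ R N β c2 l : ℕ) (ℓ ν κ x : ℕ → ℕ) (y z : ℕ), Zn μ R N β c2 l ℓ ν κ x →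
  Exact ν R N ℓ κ x y → R ≤ z + 8 * μ + 1 → z + l ≤ y → z + l + μ + 1 ≤ R → κ z < κ (z + l)

/-- Z6 (gaps, up to the distance `2 μ / 3`). Assume Lx, Z4. If `z + l ≤ R - 1 - μ` use Z4. Otherwise suppose
`κ` constant on `[z, z + 189 l]`; let `z' = max z (R - 1 - μ)`, so at least `188 l` rows `t` with
`z' ≤ t < z + 189 l`; for them `2 μ ≤ 3 (R - 1 - t) ≤ 375 l (G t - 1)` and (Lx(1))
`U (t+1) = U t + G t + sk t - 1`, so `375 l U (z + 189 l) ≥ 188 l * 2 μ`, `U > μ`; but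
`U s = R + x s - (s + 1 + ν) < R - 1 - s ≤ μ` at `s = z + 189 l` (`x < ν`). -/
def GoalZ6 : Prop := ∀ (μ R N β c2 l : ℕ) (ℓ ν κ x : ℕ → ℕ) (y z : ℕ), Zn μ R N β c2 l ℓ ν κ x →
  Exact ν R N ℓ κ x y →
  (∀ t < y, R ≤ t + 1 + μ → 2 * μ ≤ 3 * (R - 1 - t) →
    ((R - 1 - t : ℕ) : ℤ) ≤ 125 * l * (G ν R N β κ x t - 1)) →
  R ≤ z + 8 * μ + 1 → z + 189 * l ≤ y → 2 * μ ≤ 3 * (R - 1 - (z + 189 * l)) → κ z < κ (z + 189 * l)

/-- Xc (crossing). For `n0 ≤ j < n1` let `c_j` be the first `c ∈ (a, b]` with `δ c < (j + 1) g` (`δ a ≥ D ≥ (j+1) g`);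
then `δ c_j ≥ j g` by the step condition. The `c_j` are distinct (`j` is determined by `δ c_j`), and `T` is
monotone. -/
def GoalXc : Prop := ∀ (a b g D n0 n1 : ℕ) (δ : ℕ → ℤ), 1 ≤ g → a ≤ b → (D : ℤ) ≤ δ a →
  (∀ c, a ≤ c → c < b → δ c ≤ δ (c + 1) + g) → δ b < (n0 + 1) * g → n1 * g ≤ D →
  ∑ j ∈ Ico n0 n1, T (j * g) ≤
    ∑ c ∈ (Ioc a b).filter (fun c => 0 ≤ δ c ∧ δ c < n1 * g), T (δ c).toNat

/-- D1 (deaths, upper part of the zone). Assume L1, Z4, Xc. `δ c = R - 1 - ac c - ν c` (distance of the death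
to the last row). `a = κ (R - 1 - 3 μ)`: by Z4 (at `R - 1 - 3 μ - l` and `R - 1 - 3 μ`)
`R - 1 - 3 μ - l < ac a ≤ sc a ≤ R - 1 - 3 μ + l`, so `δ a ≥ μ`. `b = κ (R - 1 - μ) - 1 ≥ a`, old at
`R - 1 - μ ≤ y`; by Z4 `κ (R - 1 - μ - 2 l) < κ (R - 1 - μ - l) ≤ b`, so `ac b > R - 1 - μ - 2 l`; by `0 < f1 y` some
`c' > κ y` has `ν c' ≥ w`, so `ν c ≥ w` for all `c2 ≤ c ≤ c'` (`anti`), and `δ b < μ + 2 l - w ≤ μ / 3 + 2 l`.
Steps: for `a ≤ c < b`, `δ c - δ (c+1) = ac (c+1) - ac c + ν (c+1) - ν c ≤ ac (c+1) - ac c ≤ 2 l`: with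
`z = ac c` (so `c ≤ κ z`), if `z + 2 l ≤ R - 1 - μ` then `κ (z + 2 l) ≥ c + 2` by Z4 twice, so `ac (c+1) ≤ z + 2 l`;
otherwise `ac (c+1) ≤ sc b ≤ R - 1 - μ`. Xc with `g = 2 l`, `D = w`, `n0 = μ / (6 l) + 2`, `n1 = w / (2 l)`: the points found
are old and alive at `y` (`δ c < w`), distinct, and
`∑_{n0 ≤ j < n1} T (2 l j) ≥ (n1 - n0) (μ / 3)² / 2 ≥ (μ / (6 l) - 4) μ² / 18 ≥ μ³ / (120 l)` as `μ ≥ 5000 l`. -/
def GoalD1 : Prop := ∀ (μ R N β c2 l : ℕ) (ℓ ν κ x : ℕ → ℕ) (y : ℕ), Zn μ R N β c2 l ℓ ν κ x →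
  Exact ν R N ℓ κ x y → R ≤ y + 1 + μ → 2 * μ ≤ 3 * (R - 1 - y) → 0 < f1 ν R N κ y →
  μ ^ 3 ≤ 120 * l * Dd ν R κ x y

/-- D2 (deaths, lower part of the zone). Assume L1, Z4, Z6, Xc. As D1, with `g = 378 l`: let
`z_e = R - 1 - (2 μ + 2) / 3` (the last row with `2 μ ≤ 3 (R - 1 - z_e)`; `z_e < y`), `a = κ (R - 1 - 3 μ)` as in D1,
`b = κ z_e - 1`. Z6 gives `κ z < κ (z + 189 l)` for `z + 189 l ≤ z_e`, so `ac b > z_e - 378 l` and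
`δ b < (2 μ + 2) / 3 + 378 l - 3 μ / 4 < 0` (`4 ν b > 3 μ`, `μ ≥ 5000 l`). Steps `≤ 378 l` (or
`ac (c+1) ≤ sc b ≤ z_e`). Xc with `D = w`, `n0 = 0`, `n1 = w / g ≥ 41`: `∑_{j < n1} T (j g) ≥
g² (n1 - 1) n1 (2 n1 - 1) / 12 ≥ g² (n1 + 1)³ / 8 ≥ w³ / (8 g)`. -/
def GoalD2 : Prop := ∀ (μ R N β c2 l : ℕ) (ℓ ν κ x : ℕ → ℕ) (y : ℕ), Zn μ R N β c2 l ℓ ν κ x →
  Exact ν R N ℓ κ x y → R ≤ y + 1 + μ → 3 * (R - 1 - y) < 2 * μ → 20000 * l ≤ R - 1 - y →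
  (∀ t < y, R ≤ t + 1 + μ → 2 * μ ≤ 3 * (R - 1 - t) →
    ((R - 1 - t : ℕ) : ℤ) ≤ 125 * l * (G ν R N β κ x t - 1)) →
  (R - 1 - y) ^ 3 ≤ 3100 * l * Dd ν R κ x y

/-- Q0 (few points are alive). Assume L1. A point `c ∈ Al y` has `ν c ≤ μ` (`z2`), so
`ac c > y - μ ≥ R - 1 - 2 μ`, `c ≥ c2`, `4 ν c > 3 μ`. Cut `(y - μ, y]` into five blocks of at most `μ / 4` rows.
For a block `(e, b]`: the points of `Al y` with `ac c ∈ (e, b]`, except the moving one, are old at the row `b` and give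
`≥ ac c + ν c - b > ν c - μ / 4 ≥ μ / 2` to it (L1.6), so their number `n` satisfies
`n μ ≤ 2 ℓ b ≤ 2 ℓ*` (`lz b = ℓ b`); and `μ ≤ ℓ*`. -/
def GoalQ0 : Prop := ∀ (μ R N β c2 l : ℕ) (ℓ ν κ x : ℕ → ℕ) (y : ℕ), Zn μ R N β c2 l ℓ ν κ x →
  Exact ν R N ℓ κ x y → R ≤ y + 1 + μ → μ * (Al ν R κ x y).card ≤ 15 * ℓ (R - 1)

/-- Q1 (pending skips from the rows before the zone). Assume L1, Z3, Q0. Let `t` be counted, `c = κ t`. Then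
`c ∈ Al y` (`U t ≥ R - ac c - ν c` by L1.5 and `U t ≤ w` give `y < ac c + ν c`), and `t > y - μ ≥ R - 1 - 2 μ`. For
two consecutive moving rows `t, t + 1` of `c` before the zone `4 μ (U (t+1) - U t) ≥ ℓ*` (Z3), so the counted rows
of `c` are consecutive and their number `n` satisfies `(n - 1) ℓ* ≤ 4 μ w`. Sum over `c ∈ Al y`:
`ℓ* ∑ (n_c - 1) ≤ 4 w μ #Al ≤ 60 w ℓ*`. -/
def GoalQ1 : Prop := ∀ (μ R N β c2 l : ℕ) (ℓ ν κ x : ℕ → ℕ) (y : ℕ), Zn μ R N β c2 l ℓ ν κ x →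
  Exact ν R N ℓ κ x y → R ≤ y + 1 + μ →
  ((range y).filter (fun t => t + μ + 2 ≤ R ∧ 0 < x t ∧ U ν R κ x t ≤ R - 1 - y)).card ≤
    (Al ν R κ x y).card + 60 * (R - 1 - y)

/-- the rows of the zone, at a distance more than `4 w`, at which `c` was moving with a skip in the last `w`
rows -/
def Ec (μ : ℕ) (ν : ℕ → ℕ) (R : ℕ) (κ x : ℕ → ℕ) (y c : ℕ) : Finset ℕ :=
  (range y).filter (fun t => R ≤ t + 1 + μ ∧ 4 * (R - 1 - y) < R - 1 - t ∧ κ t = c ∧ 0 < x t ∧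
    U ν R κ x t ≤ R - 1 - y)

/-- Q2 (one move in the zone). Assume L1, Lx. `w = R - 1 - y`, `X = R - 1 - t`. On the moving rows of `c` in
the zone `U (s+1) - U s = G s + sk s - 1 ≥ G s - 1 ≥ 1` and `G` does not increase (Lx(2)), so `Ec` is a set of
consecutive rows ending at `t`, and `(n - 1) (G t - 1) ≤ U t ≤ w`, `n = card Ec`; with
`X ≤ 3200 l (G t - 1)`: `(n - 1) X ≤ 3200 l w`. If `c` is old at `y` (`c < κ y`), let `e = sc c`, `t < e ≤ y`. By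
Lx(1) for the rows `t, …, e` (`κ e > c = κ (e-1)`): `ν c ≤ x t + ∑_{t ≤ s < e} (G s + sk s)`, so
`X - w ≤ X - U t = ν c - x t ≤ (e - t) G t + ∑ sk s`; `G t ≤ 2 (G t - 1)`, `4 w < X`. If
`4 ∑_{t ≤ s < e} sk s ≤ X` then `X ≤ 4 (e - t) (G t - 1)`, hence
`(n - 1) X ≤ 4 (e - t) (n - 1) (G t - 1) ≤ 4 w (e - t)`. -/
def GoalQ2 : Prop := ∀ (μ R N β c2 l : ℕ) (ℓ ν κ x : ℕ → ℕ) (y c t : ℕ),
  Zn μ R N β c2 l ℓ ν κ x → Exact ν R N ℓ κ x y → R ≤ y + 1 + μ → 1 ≤ R - 1 - y →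
  (∀ z < y, R ≤ z + 1 + μ → ((R - 1 - z : ℕ) : ℤ) ≤ 3200 * l * (G ν R N β κ x z - 1)) →
  t ∈ Ec μ ν R κ x y c → (∀ s ∈ Ec μ ν R κ x y c, s ≤ t) →
  ((Ec μ ν R κ x y c).card - 1) * (R - 1 - t) ≤ 3200 * l * (R - 1 - y) ∧
  (c < κ y → t < sc R κ c ∧ sc R κ c ≤ y ∧
    (((Ec μ ν R κ x y c).card - 1) * (R - 1 - t) ≤ 4 * (R - 1 - y) * (sc R κ c - t) ∨
      R - 1 - t < 4 * ∑ s ∈ Ico t (sc R κ c), sk ν κ x s))

/-- Q3 (weighted number of skips in the zone). Assume Lx. Cut the rows `R - 1 - μ ≤ t < y` into the sets of the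
distances `X ∈ (2^i w, 2^(i+1) w]`, `i = 0, 1, …`. For such a set let `z` be its first row or `R - 1 - μ`, the distance
`X_z = min (2^(i+1) w) μ`: by Lx(5) and the hypothesis at `z`,
`∑ sk t ≤ Pn z + (y - z) ≤ 60 ℓ*/μ + 140 X_z L + X_z ≤ 60 ℓ*/μ + 141 * 2^(i+1) w L`, and `1 / X² ≤ 1 / (2^i w)²`. Sum over
`i`: `60 * (4/3) ℓ*/(μ w²) + 141 * 4 L / w`. -/
def GoalQ3 : Prop := ∀ (μ R N β c2 l L : ℕ) (ℓ ν κ x : ℕ → ℕ) (y : ℕ), Zn μ R N β c2 l ℓ ν κ x →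
  Exact ν R N ℓ κ x y → R ≤ y + 1 + μ → 1 ≤ R - 1 - y → 1 ≤ L →
  (∀ z < y, R ≤ z + 1 + μ → μ * Pn ν R κ x z ≤ 60 * ℓ (R - 1) + 140 * μ * (R - 1 - z) * L) →
  ∑ t ∈ Ico (R - 1 - μ) y, (sk ν κ x t : ℝ) / ((R - 1 - t : ℕ) : ℝ) ^ 2 ≤
    80 * ℓ (R - 1) / (μ * ((R - 1 - y : ℕ) : ℝ) ^ 2) + 564 * L / ((R - 1 - y : ℕ) : ℝ)

/-- Q4 (pending skips from the zone). Assume L1, Lx, Q2, Q3. `w = R - 1 - y`. Rows `t` at a distance `≤ 4 w`: at most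
`3 w`. The others are in the sets `Ec c`, and `Ec c ≠ ∅` implies `c ∈ Al y` (as in Q1), `c ≤ κ y`. With
`t_c = max (Ec c)`, `X_c = R - 1 - t_c`, `n_c = card`: by Q2 for `c < κ y` either
`n_c - 1 ≤ 4 w τ_c / X_c`, `τ_c = sc c - t_c`, or (with `1 / X_c < 4 ∑ sk / X_c²`)
`n_c - 1 ≤ 3200 l w / X_c ≤ 12800 l w ∑_{t_c ≤ s < sc c} sk s / (R-1-s)²`. The intervals `[t_c, sc c)` are disjoint
and contained in `[R - 1 - μ, y)`, so the first ones give together at most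
`4 w ∑_{w < X ≤ μ} 1 / X ≤ 4 w L` (`μ ≤ 2^L l ≤ 2^L w`; the sum over `(2^i w, 2^(i+1) w]` is `≤ 1`), the second ones by
Q3 at most `12800 l w (80 ℓ*/(μ w²) + 564 L / w) ≤ 12800 (80 * 10^5 μ / w + 564 l L) ≤ w / 2` (`hi`, `h2`, `h1`). The
point `κ y`: `n - 1 ≤ 3200 l w / X ≤ 800 l ≤ w / 4` (`X > 4 w`). Total
`≤ 3 w + #Al + 4 w L + w / 2 + w / 4 ≤ #Al + 8 w L`. -/
def GoalQ4 : Prop := ∀ (μ R N β c2 l L : ℕ) (ℓ ν κ x : ℕ → ℕ) (y : ℕ), Zn μ R N β c2 l ℓ ν κ x →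
  Exact ν R N ℓ κ x y → R ≤ y + 1 + μ → Zw μ l L (R - 1 - y) (Wm ν R N ℓ).natAbs →
  (∀ z < y, R ≤ z + 1 + μ → Okz μ R N β l L ℓ ν κ x z) →
  ((range y).filter (fun t => R ≤ t + 1 + μ ∧ 0 < x t ∧ U ν R κ x t ≤ R - 1 - y)).card ≤
    (Al ν R κ x y).card + 8 * (R - 1 - y) * L

/-- Mv (the moving point). Assume L1, Lx, Z4. First: `x y < ν` (`y + 1 < R`); `na = ν - w` if `w ≤ ν`, and `0`
otherwise. Second: let `c = κ y` and `a = ac c < y` (otherwise clear; then `κ` is `c` on `[a, y]`, L1). Rows before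
the zone: if `a + l ≤ R - 1 - μ` then, with `z = R - 1 - μ - l ≥ a`, Z4 contradicts `κ z = κ (z + l)`. So at most `l`
of the rows `[a, y)` are before the zone (`t < R - 1 - μ`). For the rows `t ∈ [a, y)` of the zone
`U (t+1) - U t ≥ G t - 1` and `w < R - 1 - t ≤ 3200 l (G t - 1)`; as `U y < w`, their number is `≤ 3200 l`. -/
def GoalMv : Prop := ∀ (μ R N β c2 l : ℕ) (ℓ ν κ x : ℕ → ℕ) (y : ℕ), Zn μ R N β c2 l ℓ ν κ x →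
  Exact ν R N ℓ κ x y → R ≤ y + 1 + μ → 1 ≤ R - 1 - y →
  (∀ z < y, R ≤ z + 1 + μ → ((R - 1 - z : ℕ) : ℤ) ≤ 3200 * l * (G ν R N β κ x z - 1)) →
  x y - na ν R (κ y) y < R - 1 - y ∧ y ≤ ac R κ x (κ y) + 3201 * l

/-- L10 (one step of the induction). Assume L1, L3, D1, D2, Q0, Q1, Q4, Mv. `w = R - 1 - y`, `W = |Wm|`.
Third claim: `Pn y ≤` (Q1) + (Q4) `≤ 2 #Al + 60 w + 8 w L`, and `μ #Al ≤ 15 ℓ*`. Then (L3, Mv)
`G T w ≥ Dd - w Pn - (w + 1 + 3201 l) w - W`, `T w ≤ w²`, so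
`(G - 1) T w ≥ Dd - w (60 ℓ*/μ + 140 w L) - 3 w² - W`. Times `l`: `60 l ℓ* w / μ ≤ 6 * 10^6 μ w ≤ 6 * 10^(-6) w³`,
`140 w² l L ≤ 7 * 10^(-6) w³`, `3 l w² ≤ 10^(-6) w³`, `l W ≤ 10^(-5) w³`: together `≤ w³ / 40000`. Upper part
(`2 μ ≤ 3 w`), `0 < f1 y`: `l Dd ≥ μ³ / 120 ≥ w³ / 120` (D1), so `l (G - 1) T w ≥ w³ / 121`, and
`T w ≤ 0.51 w²`: `w ≤ 125 l (G - 1)`. If `f1 y = 0` (`2 μ ≤ 3 w`): the points not started have `ν c < w`, natural value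
`0`; as in Z3 `ℓ y ≤ μ (oo y + 1)`, so `2 μ (oo + 1) ≥ ℓ*`, `l (oo + 1) ≥ 2 μ`, `l oo ≥ μ ≥ w`, `G - 1 ≥ oo`. Lower part
(`3 w < 2 μ`): `l Dd ≥ w³ / 3100` (D2), so `l (G - 1) T w ≥ w³ / 3361` and `w ≤ 3200 l (G - 1)`. -/
def GoalL10 : Prop := ∀ (μ R N β c2 l L : ℕ) (ℓ ν κ x : ℕ → ℕ) (y : ℕ), Zn μ R N β c2 l ℓ ν κ x →
  Exact ν R N ℓ κ x y → R ≤ y + 1 + μ → Zw μ l L (R - 1 - y) (Wm ν R N ℓ).natAbs →
  (∀ z < y, R ≤ z + 1 + μ → Okz μ R N β l L ℓ ν κ x z) → Okz μ R N β l L ℓ ν κ x y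

/-- L15 (the game theorem, zone case). Assume L1, L2, L4, Lx, L5, Ar, L10, Mv, L11, L12. Take the greedy play. (As H15,
`Pool/Agent/Helper32/Hw/H15.lean`.) (0) If `κ` reaches `N` at a row `r` with `lz r ≤ ℓ r` after exact rows: loads
do not increase afterwards, `ℓ` is monotone, so all loads are `≤ ℓ z`, and `Wm ≥ 0` by L2: first alternative of
`Fine`. (1) For `y + μ + 2 ≤ R` and `Exact y`: `f1 y = 0` (Ar(4)), `G y ≥ β ≥ 1`, so `bb y ≤ ℓ (y+1)` (Lx(3), (4)) and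
the greedy rule gives `Exact (y+1)` or (0). (2) So `Exact (R - 1 - μ)` or (0). By Ar `Zn` holds. L10 and strong
induction give `Okz` for all rows `z` with `w0 ≤ R - 1 - z ≤ μ` as long as they are exact (`Zw` at a distance `w ≥ w0`
follows from `Zw` at `w0`), so `G z ≥ 2`, `bb z ≤ ℓ (z+1)`, and the next row is exact or (0). (3) At
`y = R - 1 - w0`, with `k = 3201 l` (Mv), `μ Pn y ≤ 60 ℓ* + 140 μ w0 L` (Okz): `μ w0 (Pn + k + 5 w0 + 2) ≤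
w0 (60 ℓ* + 150 μ w0 L) < μ W`: L11 or L12. -/
def GoalL15 : Prop := ∀ (μ M R N β c1 c2 l L w0 : ℕ) (ℓ ν : ℕ → ℕ), Arr μ M R N c1 c2 ℓ ν →
  Lin R β ℓ → 1 ≤ l → 4 * μ ^ 2 ≤ l * ℓ (R - 1) → l * ℓ (R - 1) ≤ 10 ^ 5 * μ ^ 2 →
  Zw μ l L w0 (Wm ν R N ℓ).natAbs → 2 * w0 ≤ μ →
  w0 * (60 * ℓ (R - 1) + 150 * μ * w0 * L) < μ * (Wm ν R N ℓ).natAbs →
  ∃ κ x : ℕ → ℕ, Play ν R N κ x ∧ Fine ν R N ℓ κ x

/-- L16 (the game theorem, trivial case). Assume L1, L2, L4, Lx, L5, Ar, L11, L12. As L15, (0) and (1): `Exact y` for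
`y = R - 1 - μ`, or (0). At this row `w = μ`. Pending skips: a moving row `t < y` with `U t ≤ μ` has
`y < ac (κ t) + ν (κ t)` (L1.5), so `ν (κ t) ≤ μ` (Ar(3)) and `t ≥ ac > y - μ`: `Pn y ≤ μ`. `k = μ`: if `0 < x y` then
`x y ≥ 1 + y - ac (κ y)` and `x y < ν (κ y) ≤ μ` (`κ y ≥ c1`, Ar(1)); if `x y = 0` then `y < ac (κ y)`. As
`μ (7 μ + 2) < 10 μ²` and `3 μ² < 10 μ² ≤ |Wm|`: L11 or L12. -/
def GoalL16 : Prop := ∀ (μ M R N β c1 c2 : ℕ) (ℓ ν : ℕ → ℕ), Arr μ M R N c1 c2 ℓ ν →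
  Lin R β ℓ → 10 * μ ^ 2 ≤ (Wm ν R N ℓ).natAbs →
  ∃ κ x : ℕ → ℕ, Play ν R N κ x ∧ Fine ν R N ℓ κ x

end Pool.Agent.Helper43.Lr
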